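import Pool.Agent.H.MP_9da05b_an.C

namespace Pool.Agent.Results.MP_9da05b_an.No
open Pool.Agent.H.MP_9da05b_an

theorem result : ∃ (F : X → ℝ → ℝ) (W : X → ℝ),
    Admissible F ∧ Continuous W ∧ (∀ x, 0 ≤ W x) ∧ Regular W F ∧
    (∃ ψ₁ ψ₂, ClassKinf ψ₁ ∧ ClassKinf ψ₂ ∧ ∀ x, ψ₁ |ev x 0| ≤ W x ∧ W x ≤ ψ₂ ‖x‖) ∧
    (∃ α χ, ClassKinf α ∧ ClassK χ ∧ ∀ x v, χ |v| ≤ |ev x 0| →
      driver W F x v ≤ ((-α |ev x 0| : ℝ) : EReal)) ∧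
    (∃ α γ, ClassKinf α ∧ ClassKinf γ ∧ ∀ x v,
      driver W F x v ≤ ((-α |ev x 0| + γ |v| : ℝ) : EReal)) ∧
    ¬ ISS F := by
  refine ⟨f, V, f_adm, V_cont, V_nonneg, V_regular f,
    ⟨_, _, log_Kinf 0 le_rfl, log_Kinf K (by linarith [K_ge]), sandwich⟩,
    ⟨_, _, half_al_Kinf, chi_K, fun x v h => ?_⟩,
    ⟨_, _, al_Kinf, id_Kinf, fun x v => ?_⟩, not_ISS⟩
  · rw [driver_eq, EReal.coe_le_coe_iff]
    have h1 := diss x v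
    have h2 := chi_le (abs_nonneg v) h
    linarith
  · rw [driver_eq, EReal.coe_le_coe_iff]
    exact diss x v

end Pool.Agent.Results.MP_9da05b_an.No
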